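import Pool.Agent.K7.H44.LP.Last2

/-!
# Common vertex of all longest paths of a connected `P₅`-free graph: statements of the parts

`Q` is a longest path, `C` a component of `G - Q`, `N` the vertices attached to `C`, `H` the vertices
outside of `C` and `N`; `P` is a longest path which misses `a`, `C'` the component of `G - P` with `a`,
`W` the set of the vertices attached to `C'`, and `s` the successor on `P`.
-/

set_option autoImplicit false

namespace Pool.Agent.L7h86.LP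

open Finset Classical
open Pool.Agent.K7.H44.LP (NoP5 Longest comp NC phi nc Sys)

universe u

variable {V : Type u}

/-- outside of the closed neighbourhood of `C` -/
def Hh (G : SimpleGraph V) (C : Set V) (v : V) : Prop := v ∉ C ∧ ∀ c ∈ C, ¬ G.Adj c v

/-- attached to `C` -/
def Nn (G : SimpleGraph V) (C : Set V) (v : V) : Prop := v ∉ C ∧ ∃ c ∈ C, G.Adj c v

/-- number of neighbours outside of the closed neighbourhood of `C` -/
noncomputable def hc [Fintype V] (G : SimpleGraph V) (C : Set V) (v : V) : ℕ :=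
  (univ.filter fun x => Hh G C x ∧ G.Adj v x).card

/-- the data: `a` is adjacent to all of `C`, and `C'`, `W`, `s` come from a longest path without `a` -/
structure Dat [Fintype V] (G : SimpleGraph V) (C C' W : Set V) (a : V) (s : V → V) : Prop where
  h5 : NoP5 G
  conn : ∀ U : Set V, U ⊆ C → U.Nonempty → (∀ u ∈ U, ∀ v ∈ C, G.Adj u v → v ∈ U) → U = C
  ne : C.Nonempty
  full : ∀ c ∈ C, G.Adj a c
  aC : a ∉ C
  aC' : a ∈ C'
  nb : ∀ x ∈ C', ∀ v, G.Adj x v → v ∈ C' ∨ v ∈ W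
  sadj : ∀ w ∈ W, G.Adj w (s w)
  sinj : Set.InjOn s W
  snon : ∀ w ∈ W, ∀ w' ∈ W, ¬ G.Adj (s w) (s w')
  sC' : ∀ w ∈ W, ∀ x ∈ C', ¬ G.Adj x (s w)
  maxh : ∀ b, Nn G C b → ¬ G.Adj a b → (∃ z, Hh G C z ∧ G.Adj b z ∧ ¬ G.Adj a z) →
    hc G C b ≤ hc G C a

/-- the successors in `N` of the vertices of `W` -/
def Bb (G : SimpleGraph V) (C W : Set V) (s : V → V) (b : V) : Prop := Nn G C b ∧ ∃ w ∈ W, s w = b

/-- the vertices of `H` adjacent neither to `a` nor to a vertex of `B` -/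
def Uu (G : SimpleGraph V) (C W : Set V) (a : V) (s : V → V) (r : V) : Prop :=
  Hh G C r ∧ ¬ G.Adj a r ∧ ∀ b, Bb G C W s b → ¬ G.Adj b r

/-- [LEM1] Private neighbours in `H` of nonadjacent attachments are adjacent.

Proof: take `c' ∈ C` adjacent to `n'`. By the argument of `Sys.near` (its proof uses only `conn`)
`c'` is adjacent to `n` or to some `u ∈ C` adjacent to `n`. If `n` and `n'` have a common neighbour `c`
in `C`, then `e n c n' e'` is an induced path (unless `e` is adjacent to `e'`); otherwise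
`e n u c' n'` is. -/
def S_LEM1 : Prop := ∀ (V : Type u) (G : SimpleGraph V) (C : Set V) (n n' e e' : V), NoP5 G →
  (∀ U : Set V, U ⊆ C → U.Nonempty → (∀ u ∈ U, ∀ v ∈ C, G.Adj u v → v ∈ U) → U = C) →
  Nn G C n → Nn G C n' → ¬ G.Adj n n' → Hh G C e → Hh G C e' → G.Adj n e → ¬ G.Adj n' e →
  G.Adj n' e' → ¬ G.Adj n e' → G.Adj e e'

/-- [CL] The count. `t` sends `b ∈ B4 ⊆ B` to a vertex of `H` adjacent to `b` and not to `a`.

Proof. Let `𝒲 = {w ∈ W : s w ∈ B ∪ Γ}`; `s` is injective on it, so `|𝒲| ≤ |B| + |Γ|`. It contains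
`C ∩ W` (for `c ∈ C ∩ W` we have `¬ a ~ s c` by `sC'`, so `s c ∉ C` by `full`, and `s c ∈ N`) and `Z`
(disjoint from `C`, as `Z ⊆ H`). If `B4 = ∅` this is all. Otherwise let `bt ∈ B4` have the largest
number of neighbours in `t '' B4`. Then `bt ~ t b` for all `b ∈ B4`: if not, by maximality there is
`e' ∈ t '' B4` with `bt ~ e'` and not `b ~ e'`, and [LEM1] for `b`, `bt` and `t b`, `e'` gives
`t b ~ e'`, but `t '' B4` is independent. Put `Xb = {x ∈ H : bt ~ x, ¬ a ~ x} ⊇ t '' B4` and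
`Xa = {x ∈ H : a ~ x, ¬ bt ~ x}`; `maxh` gives `|Xa| ≥ |Xb| ≥ |B4|`, and [LEM1] for `a`, `bt`: each
`x ∈ Xa` is adjacent to each `z ∈ Xb`.
* If `Xa ⊆ W`: each `x ∈ Xa` is in `𝒲`: `s x ∉ C`; if `s x ∈ H` then `s x`, `x`, `a`, `c`, `bt` is an
  induced path with `c ∈ C`, `c ~ bt` (`¬ a ~ s x`, `¬ bt ~ s x` by `sC'`, `snon`). And `Xa` is disjoint
  from `Z` (`x ~ t bt` for `x ∈ Xa`, but `¬ z ~ t bt` for `z ∈ Z`).
* If some `x ∈ Xa` is not in `W`, then `x ∈ C'` (`nb` for `a`). For `b ∈ B4` let `z = t b ∈ Xb`: `x ~ z`,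
  so `z ∈ C'` or `z ∈ W`; `z ∉ C'` by `sC'` (as `z ~ b`). So `z ∈ W`; `s z ∉ C`; if `s z ∈ H`, then
  `bt ~ s z` (else the induced path `s z`, `z`, `bt`, `c`, `a`), so `s z ∈ Xb` and `x ~ s z`, against
  `sC'`. So `s z ∈ N`, `z ∈ 𝒲`. And `t '' B4` is disjoint from `Z` (as `¬ a ~ t b`) and from `C`. -/
def S_CL : Prop := ∀ (V : Type u) [Fintype V] (G : SimpleGraph V) (C C' W : Set V) (a : V)
  (s : V → V), Dat G C C' W a s → ∀ (Γ Z B4 : Finset V) (t : V → V),
  (∀ r ∈ Γ, Uu G C W a s r) →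
  (∀ z ∈ Z, Hh G C z ∧ G.Adj a z ∧ z ∈ W ∧ (Bb G C W s (s z) ∨ s z ∈ Γ)) →
  (∀ b ∈ B4, Bb G C W s b ∧ Hh G C (t b) ∧ ¬ G.Adj a (t b) ∧ G.Adj b (t b)) →
  Set.InjOn t B4 →
  (∀ z ∈ Z, ∀ b ∈ B4, ¬ G.Adj z (t b)) →
  (∀ b ∈ B4, ∀ b' ∈ B4, ¬ G.Adj (t b) (t b')) →
  (univ.filter fun c => c ∈ C ∧ c ∈ W).card + Z.card + B4.card ≤
    (univ.filter fun b => Bb G C W s b).card + Γ.card

/-! ### Lists -/

/-- a vertex, the vertex `∞` adjacent to all vertices, or the contracted edge of `C` -/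
inductive K (V : Type u) : Type u
  | v : V → K V
  | inf : K V
  | om : K V

/-- adjacency; the contracted edge is adjacent to the vertices of `J` -/
def R (G : SimpleGraph V) (J : Set V) : K V → K V → Prop
  | K.v x, K.v y => G.Adj x y
  | K.v x, K.om => x ∈ J
  | K.om, K.v x => x ∈ J
  | K.v _, K.inf => True
  | K.inf, K.v _ => True
  | _, _ => False

/-- an attachment or `∞` -/
def isN (G : SimpleGraph V) (C : Set V) : K V → Prop
  | K.v x => Nn G C x
  | K.inf => True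
  | K.om => False

/-- [NC] A closed chain on `Q`, `∞` and the contracted edge gives a path longer than `Q`: replace `om`
by `c, c'`, rotate so that `∞` is first and drop it. Let `T` be the list; `T = X ++ inf :: Y`, so
`Y ++ X` is a chain (`R` of the last vertex of `X ...` and so on), replace `om` in it by `c, c'`; all
other entries are `K.v x` with `x ∈ Q` (or `x = r`). The same with one more vertex `r` outside of `Q`
and `C` (`r` and `C` have no relation otherwise). So: no chain `T`, closed, which is a permutation of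
`om :: inf :: (Q' .map v)` with `Q' ~ Q` or `Q' ~ r :: Q`. -/
def S_NC : Prop := ∀ (V : Type u) (G : SimpleGraph V) (C J : Set V) (Q : List V) (c c' : V),
  Longest G Q → (∀ x ∈ C, x ∉ Q) → c ∈ C → c' ∈ C → G.Adj c c' → (∀ j ∈ J, G.Adj j c ∧ G.Adj j c') →
  ∀ (T : List (K V)) (Q' : List V), T.IsChain (R G J) →
  T.Perm (K.om :: K.inf :: Q'.map K.v) → (∀ x ∈ Q', x ∉ C) → Q'.Nodup → Q.length ≤ Q'.length →
  ∀ x y, T.head? = some x → T.getLast? = some y → ¬ R G J y x

/-- [SE] A chain on `Q`, `∞` and the contracted edge from `y` to an attachment `n`, with `y` adjacent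
to `J`: `T = X ++ om :: Y`; the last element of `X` is `K.v μ`, the first element of `Y` is `K.v μ'`
with `μ, μ' ∈ J` (`X` and `Y` are not empty, as `om` is neither first nor last). Take `c'' ∈ C` adjacent
to `n`. Then `X ++ c'' :: Y.reverse` is closed (`μ ~ c''`, `c'' ~ n`, `μ' ~ y`), contains `∞`, and
without `∞` it is a path with `|Q| + 1` vertices. -/
def S_SE : Prop := ∀ (V : Type u) (G : SimpleGraph V) (C J : Set V) (Q : List V),
  Longest G Q → (∀ x ∈ C, x ∉ Q) → (∀ j ∈ J, ∀ c ∈ C, G.Adj j c) →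
  ∀ (T : List (K V)) (y n : V), T.IsChain (R G J) → T.Perm (K.om :: K.inf :: Q.map K.v) →
  T.head? = some (K.v y) → T.getLast? = some (K.v n) → Nn G C n → (∀ j ∈ J, G.Adj y j) → False

/-- [INIT] The first chain. `Q = A ++ b₁ :: v₁ :: M ++ b₂ :: v₂ :: E` with `b₁, b₂ ∈ J ∩ N`,
`v₁, v₂ ∈ H` (in one of the two orders; `v₁ ≠ b₂` as `v₁ ∈ H`). Then
`T = (v₁ :: M ++ [b₂]) ++ om :: (b₁ :: A.reverse) ++ inf :: (E.reverse ++ [v₂])`. No two consecutive
vertices of `Q` are in `N`, and the ends of `Q` are not in `N` (`ix0`, `ix1` for `Q` and `Q.reverse`);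
so no two consecutive elements of `T` are attachments or `∞`. -/
def S_INIT : Prop := ∀ (V : Type u) (G : SimpleGraph V) (C J : Set V) (Q : List V) (x0 : V),
  Longest G Q → x0 ∉ Q → C = comp G Q x0 → ∀ (b₁ v₁ b₂ v₂ : V) (i j : ℕ), i + 1 < Q.length →
  j + 1 < Q.length → i ≠ j → Q.getD i x0 = b₁ → Q.getD (i + 1) x0 = v₁ → Q.getD j x0 = b₂ →
  Q.getD (j + 1) x0 = v₂ → b₁ ∈ J → b₂ ∈ J → Nn G C b₁ → Nn G C b₂ → Hh G C v₁ → Hh G C v₂ →
  ∃ T : List (K V), T.IsChain (R G J) ∧ T.IsChain (fun x y => ¬ (isN G C x ∧ isN G C y)) ∧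
    T.Perm (K.om :: K.inf :: Q.map K.v) ∧
    ((T.head? = some (K.v v₁) ∧ T.getLast? = some (K.v v₂)) ∨
      (T.head? = some (K.v v₂) ∧ T.getLast? = some (K.v v₁)))

/-- [TT] The contradiction. All of `B` is adjacent to all of `C`, `C` has two adjacent vertices and is
contained in `W`. There is no good chain whose ends `y`, `z` are in `H`, adjacent to `a`, and have a
common neighbour in `U`. -/
def S_TT : Prop := ∀ (V : Type u) [Fintype V] (G : SimpleGraph V) (C C' W : Set V) (a : V)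
  (s : V → V) (Q : List V), Dat G C C' W a s → Longest G Q → (∀ x ∈ C, x ∉ Q) →
  (∀ v, Nn G C v → v ∈ Q) → (∀ b, Bb G C W s b → ∀ c ∈ C, G.Adj b c) → (∃ b, Bb G C W s b) →
  (∀ c ∈ C, c ∈ W) → (∃ c ∈ C, ∃ c' ∈ C, G.Adj c c') →
  ∀ (T : List (K V)) (y z r : V),
  T.IsChain (R G {v | v = a ∨ Bb G C W s v}) → T.IsChain (fun x y => ¬ (isN G C x ∧ isN G C y)) →
  T.Perm (K.om :: K.inf :: Q.map K.v) → T.head? = some (K.v y) → T.getLast? = some (K.v z) →
  Hh G C y → G.Adj a y → Hh G C z → G.Adj a z → Uu G C W a s r → G.Adj y r → G.Adj z r → False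

/-! ### Steps of the old proof -/

/-- [F0] `P` misses `C`. (From `step2`.) -/
def S_F0 : Prop := ∀ (V : Type u) [Fintype V] (G : SimpleGraph V) (Q P : List V) (x0 : V) (i : ℕ),
  Longest G Q → Longest G P → x0 ∉ Q →
  i ∈ Sys.I G Q.length (fun i => Q.getD i x0) (comp G Q x0) → Q.getD i x0 ∉ P →
  (∀ c ∈ comp G Q x0, c ∉ P) →
  (∀ n, phi G (comp G Q x0) n → phi G (comp G P (Q.getD i x0)) n) ∧
    nc G (comp G Q x0) < nc G (comp G P (Q.getD i x0))

/-- [ONE] `C` has no edge. (From `step2`.) -/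
def S_ONE : Prop := ∀ (V : Type u) [Fintype V] (G : SimpleGraph V) (Q P : List V) (x0 : V) (i : ℕ),
  NoP5 G → Longest G Q → Longest G P → x0 ∉ Q →
  i ∈ Sys.I G Q.length (fun i => Q.getD i x0) (comp G Q x0) →
  (Sys.I G Q.length (fun i => Q.getD i x0) (comp G Q x0)).card + 1 ≤
      Sys.num G Q.length (fun i => Q.getD i x0) (Q.getD i x0) → Q.getD i x0 ∉ P →
  (∀ c ∈ comp G Q x0, ∀ c' ∈ comp G Q x0, ¬ G.Adj c c') →
  (∀ n, phi G (comp G Q x0) n → phi G (comp G P (Q.getD i x0)) n) ∧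
    nc G (comp G Q x0) < nc G (comp G P (Q.getD i x0))

/-- [MIX] `a = Q.getD i x0` has a neighbour and a non-neighbour in `C`, and `P` meets `C`. (The last
third of the proof of `step2`; there `hB` and the use of `whole` for the first segment are replaced by the
hypotheses `hB` and `h0`.) -/
def S_MIX : Prop := ∀ (V : Type u) [Fintype V] (G : SimpleGraph V) (Q P : List V) (x0 : V) (i : ℕ),
  NoP5 G → Longest G Q → Longest G P → x0 ∉ Q →
  i ∈ Sys.I G Q.length (fun i => Q.getD i x0) (comp G Q x0) → Q.getD i x0 ∉ P →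
  (∀ j ∈ Sys.I G Q.length (fun i => Q.getD i x0) (comp G Q x0),
      ¬ G.Adj (Q.getD i x0) (Q.getD j x0) → G.Adj (Q.getD i x0) (Q.getD (j + 1) x0) ∧
        G.Adj (Q.getD i x0) (Q.getD (j - 1) x0)) →
  (∀ m ∈ Sys.cell G Q.length (fun i => Q.getD i x0) (comp G Q x0) 0,
      G.Adj (Q.getD i x0) (Q.getD m x0)) →
  (∃ c ∈ comp G Q x0, ¬ G.Adj (Q.getD i x0) c) → (∃ c ∈ comp G Q x0, c ∈ P) →
  ∃ m, (∀ n, phi G (comp G Q x0) n → n ≤ m) ∧ phi G (comp G P (Q.getD i x0)) (m + 1) ∧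
      m + 1 ≤ Fintype.card V

end Pool.Agent.L7h86.LP
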