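import Pool.Agent.L7h86.LP.Full
import Pool.Agent.L7h87.LP.F0
import Pool.Agent.L7h87.LP.One
import Pool.Agent.L7h87.LP.Mix

/-!
# A common vertex of all longest paths of a connected `P₅`-free graph
-/

set_option autoImplicit false

namespace Pool.Agent.L7h86.LP

open Finset Classical
open Pool.Agent.K7.H44.LP (NoP5 Longest comp NC phi nc Sys theSys comp_not comp_conn comp_closed
  self_comp att idx getD_mem mea mea_le pm pm_spec pm_le nc_le ne_of)

universe u

variable {V : Type u} {G : SimpleGraph V}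

/-- the component of `q` outside of the closed neighbourhood of `C` -/
def D0 (G : SimpleGraph V) (C : Set V) (q v : V) : Prop :=
  Relation.ReflTransGen (fun x y => G.Adj x y ∧ Hh G C y) q v

theorem D0_H {C : Set V} {q v : V} (hq : Hh G C q) (h : D0 G C q v) : Hh G C v := by
  rcases Relation.ReflTransGen.cases_tail h with rfl | ⟨w, -, hw⟩
  · exact hq
  · exact hw.2

theorem D0_step {C : Set V} {q v w : V} (h : D0 G C q v) (hvw : G.Adj v w) (hw : Hh G C w) :
    D0 G C q w := Relation.ReflTransGen.tail h ⟨hvw, hw⟩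

variable [Fintype V]

/-- the best longest path and component -/
theorem best (hall : ∃ (Q : List V) (x0 : V), Longest G Q ∧ x0 ∉ Q) :
    ∃ (Q : List V) (x0 : V), Longest G Q ∧ x0 ∉ Q ∧ ∀ (P : List V) (a : V), Longest G P → a ∉ P →
      ¬ ((∀ n, phi G (comp G Q x0) n → phi G (comp G P a) n) ∧
        nc G (comp G Q x0) < nc G (comp G P a)) ∧
      ¬ ∃ m, (∀ n, phi G (comp G Q x0) n → n ≤ m) ∧ phi G (comp G P a) (m + 1) ∧
        m + 1 ≤ Fintype.card V := by
  obtain ⟨Q', x0', hQ', hx0'⟩ := hall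
  set B := Fintype.card V * (Fintype.card V + 1) + Fintype.card V with hB
  obtain ⟨Q, x0, hQ, hx0, hn⟩ := Nat.findGreatest_spec
    (P := fun n => ∃ (Q : List V) (x0 : V), Longest G Q ∧ x0 ∉ Q ∧ mea G (comp G Q x0) = n)
    (n := B) (mea_le (comp G Q' x0')) ⟨Q', x0', hQ', hx0', rfl⟩
  refine ⟨Q, x0, hQ, hx0, fun P a hP haP => ?_⟩
  have h4 := Nat.le_findGreatest
    (P := fun n => ∃ (Q : List V) (x0 : V), Longest G Q ∧ x0 ∉ Q ∧ mea G (comp G Q x0) = n)
    (n := B) (mea_le (comp G P a)) ⟨P, _, hP, haP, rfl⟩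
  rw [← hn] at h4
  constructor
  · rintro ⟨e1, e2⟩
    have e3 : pm G (comp G Q x0) ≤ pm G (comp G P a) :=
      Nat.le_findGreatest (pm_le _) (e1 _ (pm_spec _))
    have e4 := Nat.mul_le_mul_right (Fintype.card V + 1) e3
    unfold mea at h4
    omega
  · rintro ⟨m, e1, e2, e3⟩
    have e4 := e1 _ (pm_spec _)
    have e5 : m + 1 ≤ pm G (comp G P a) := Nat.le_findGreatest e3 e2
    have e6 : pm G (comp G Q x0) + 1 ≤ pm G (comp G P a) := by omega
    have e7 := Nat.mul_le_mul_right (Fintype.card V + 1) e6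
    have e8 := nc_le (G := G) (comp G Q x0)
    unfold mea at h4
    rw [Nat.add_mul] at e7
    omega

/-- **A common vertex.** -/
theorem common (hG : G.Connected) (h5 : NoP5 G) : ∃ a, ∀ P : List V, Longest G P → a ∈ P := by
  by_cases hall : ∃ (Q : List V) (x0 : V), Longest G Q ∧ x0 ∉ Q
  swap
  · obtain ⟨a⟩ := hG.nonempty
    refine ⟨a, fun P hP => ?_⟩
    by_contra haP
    exact hall ⟨P, a, hP, haP⟩
  obtain ⟨Q, x0, hQ, hx0, hbest⟩ := best hall
  have SQ := theSys hQ x0 (G := G)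
  have hIne := ne_of hG hQ hx0
  by_cases hed : ∃ c ∈ comp G Q x0, ∃ c' ∈ comp G Q x0, G.Adj c c'
  swap
  · -- `C` has no edge
    push Not at hed
    obtain ⟨i, hi, h1, -, -⟩ := SQ.main2 h5 hIne
    refine ⟨Q.getD i x0, fun P hP => ?_⟩
    by_contra haP
    exact (hbest P _ hP haP).1
      (Pool.Agent.L7h87.LP.s_ONE V G Q P x0 i h5 hQ hP hx0 hi h1 haP hed)
  -- the choice of `a`
  have hlem := Pool.Agent.L7h12.LP.s_LEM1.{u}
  have hj0 := min'_mem _ hIne
  set j0 := (Sys.I G Q.length (fun i => Q.getD i x0) (comp G Q x0)).min' hIne with hj0'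
  have hj0L := (Sys.mem_I.1 hj0).1
  have hj0p := SQ.pos hj0
  have hlow : ∀ m, m < j0 → m ∉ Sys.I G Q.length (fun i => Q.getD i x0) (comp G Q x0) := by
    intro m hm h
    have : j0 ≤ m := min'_le _ _ h
    omega
  have hq0 : Hh G (comp G Q x0) (Q.getD 0 x0) := hh_of_not_I (by omega) (hlow 0 (by omega))
  have hD0 : ∀ m, m < j0 → D0 G (comp G Q x0) (Q.getD 0 x0) (Q.getD m x0) := by
    intro m
    induction m with
    | zero => intro _; exact Relation.ReflTransGen.refl
    | succ m ih =>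
      intro hm
      exact D0_step (ih (by omega)) (SQ.adj m (by omega)) (hh_of_not_I (by omega) (hlow _ hm))
  have hA0 : (univ.filter fun n => Nn G (comp G Q x0) n ∧
      ∃ d, D0 G (comp G Q x0) (Q.getD 0 x0) d ∧ G.Adj n d).Nonempty := by
    refine ⟨Q.getD j0 x0, ?_⟩
    rw [mem_filter]
    refine ⟨mem_univ _, nn_of_I hj0, Q.getD (j0 - 1) x0, hD0 _ (by omega), ?_⟩
    have := SQ.adj (j0 - 1) (by omega)
    rw [show j0 - 1 + 1 = j0 by omega] at this
    exact this.symm
  obtain ⟨a, haA, hamax⟩ := exists_max_image _ (fun n => hc G (comp G Q x0) n) hA0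
  obtain ⟨-, haN, d, hd, had⟩ := mem_filter.1 haA
  obtain ⟨hi, hia, haQ⟩ := I_of_nn haN
  generalize Q.idxOf a = i at hi hia
  have hmax : ∀ b, Nn G (comp G Q x0) b → ¬ G.Adj a b →
      (∃ z, Hh G (comp G Q x0) z ∧ G.Adj b z ∧ ¬ G.Adj a z) →
      hc G (comp G Q x0) b ≤ hc G (comp G Q x0) a := by
    rintro b hb hab ⟨z, hz, hbz, haz⟩
    refine hamax b ?_
    rw [mem_filter]
    refine ⟨mem_univ _, hb, ?_⟩
    by_cases hbd : G.Adj b d
    · exact ⟨d, hd, hbd⟩
    · have := hlem V G (comp G Q x0) a b d z h5 (comp_conn x0) haN hb hab (D0_H hq0 hd) hz had hbd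
        hbz haz
      exact ⟨z, D0_step hd this hz, hbz⟩
  refine ⟨a, fun P hP => ?_⟩
  by_contra haP
  have hiP : Q.getD i x0 ∉ P := by rw [hia]; exact haP
  by_cases hmeet : ∃ c ∈ comp G Q x0, c ∈ P
  swap
  · push Not at hmeet
    exact (hbest P _ hP hiP).1 (Pool.Agent.L7h87.LP.s_F0 V G Q P x0 i hQ hP hx0 hi hiP hmeet)
  by_cases hful : ∀ c ∈ comp G Q x0, G.Adj a c
  · exact full_case h5 hQ hP hx0 haQ haP hful hmax hmeet hed
  -- `a` has a neighbour and a non-neighbour in `C`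
  push Not at hful
  obtain ⟨c1, hc1, hac1⟩ := hful
  obtain ⟨_, c2, hc2, hc2a⟩ := id haN
  obtain ⟨u, hu, v, hv, huv, hau, hav⟩ : ∃ u ∈ comp G Q x0, ∃ v ∈ comp G Q x0, G.Adj u v ∧
      G.Adj a u ∧ ¬ G.Adj a v := by
    by_contra hcon
    push Not at hcon
    have := comp_conn (G := G) (l := Q) x0 {c | c ∈ comp G Q x0 ∧ G.Adj a c} (fun c h => h.1)
      ⟨c2, hc2, hc2a.symm⟩ (fun u hu v hv huv => ⟨hv, hcon u hu.1 v hv huv hu.2⟩)
    have h3 : c1 ∈ {c | c ∈ comp G Q x0 ∧ G.Adj a c} := by rw [this]; exact hc1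
    exact hac1 h3.2
  have hcl : ∀ x y, Hh G (comp G Q x0) x → Hh G (comp G Q x0) y → G.Adj x y → G.Adj a x →
      G.Adj a y := by
    intro x y hx hy hxy hax
    by_contra hay
    exact h5 v u a x y huv.symm hau.symm hax hxy (fun h => hav h.symm) (hx.2 v hv) (hy.2 v hv)
      (hx.2 u hu) (hy.2 u hu) hay
  have hB : ∀ b z, Nn G (comp G Q x0) b → ¬ G.Adj a b → Hh G (comp G Q x0) z → G.Adj b z →
      G.Adj a z := by
    intro b z hb hab hz hbz
    by_contra haz
    have h6 := hmax b hb hab ⟨z, hz, hbz, haz⟩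
    have h7 : hc G (comp G Q x0) a < hc G (comp G Q x0) b := by
      unfold hc
      refine card_lt_card ⟨?_, ?_⟩
      · intro x hx
        simp only [mem_filter, mem_univ, true_and] at hx ⊢
        refine ⟨hx.1, ?_⟩
        by_contra hbx
        exact haz (hcl x z hx.1 hz (hlem V G (comp G Q x0) a b x z h5 (comp_conn x0) haN hb hab
          hx.1 hz hx.2 hbx hbz haz) hx.2)
      · intro h
        have h8 : z ∈ univ.filter fun x => Hh G (comp G Q x0) x ∧ G.Adj b x := by
          simp only [mem_filter, mem_univ, true_and]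
          exact ⟨hz, hbz⟩
        have h9 := h h8
        simp only [mem_filter, mem_univ, true_and] at h9
        exact haz h9.2
    omega
  have hall0 : ∀ x, D0 G (comp G Q x0) (Q.getD 0 x0) x → (G.Adj a x ↔ G.Adj a (Q.getD 0 x0)) := by
    intro x hx
    induction hx with
    | refl => exact Iff.rfl
    | tail h1 h2 ih =>
      rename_i y w
      have hyH := D0_H hq0 h1
      refine ⟨fun h => ih.1 (hcl w y h2.2 hyH h2.1.symm h), fun h => hcl y w hyH h2.2 h2.1 (ih.2 h)⟩
  have haq0 : G.Adj a (Q.getD 0 x0) := (hall0 d hd).1 had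
  refine (hbest P _ hP hiP).2 (Pool.Agent.L7h87.LP.s_MIX V G Q P x0 i h5 hQ hP hx0 hi hiP ?_ ?_
    ?_ hmeet)
  · intro j hj hn
    rw [hia] at hn ⊢
    have hjs := SQ.succ_lt hj
    have hjp := SQ.pos hj
    have hjL := (Sys.mem_I.1 hj).1
    have hadj2 : G.Adj (Q.getD j x0) (Q.getD (j - 1) x0) := by
      have := SQ.adj (j - 1) (by omega)
      rw [show j - 1 + 1 = j by omega] at this
      exact this.symm
    exact ⟨hB _ _ (nn_of_I hj) hn (hh_of_not_I hjs (SQ.succ_not hj)) (SQ.adj j hjs),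
      hB _ _ (nn_of_I hj) hn (hh_of_not_I (by omega) (SQ.pred_not hj)) hadj2⟩
  · intro m hm
    rw [hia]
    have hmc := Sys.mem_cell.1 hm
    have hmj : m < j0 := by
      by_contra hcon
      exact hmc.2 j0 hj0 (by omega)
    exact (hall0 _ (hD0 m hmj)).2 haq0
  · rw [hia]
    exact ⟨c1, hc1, hac1⟩

end Pool.Agent.L7h86.LP
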