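import Pool.Agent.L7h86.LP.TT
import Pool.Agent.L7h12.LP.Cl
import Pool.Agent.L7h46.LP.Init
import Pool.Agent.L7h46.LP.Nc

/-!
# The case of a vertex `a` adjacent to all vertices of `C`
-/

set_option autoImplicit false

namespace Pool.Agent.L7h86.LP

open Finset Classical
open Pool.Agent.K7.H44.LP (NoP5 Longest comp NC phi nc Sys theSys comp_not comp_conn comp_closed
  self_comp att idx getD_mem)

universe u

variable {V : Type u} {G : SimpleGraph V}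

/-- the successor on a list -/
noncomputable def suc (P : List V) (x0 : V) (w : V) : V := P.getD (P.idxOf w + 1) x0

theorem nn_of_I {Q : List V} {x0 : V} {k : ℕ}
    (h : k ∈ Sys.I G Q.length (fun i => Q.getD i x0) (comp G Q x0)) :
    Nn G (comp G Q x0) (Q.getD k x0) := by
  obtain ⟨h1, c, hc, h2⟩ := Sys.mem_I.1 h
  exact ⟨fun h => comp_not _ h (getD_mem x0 h1), c, hc, h2⟩

theorem hh_of_not_I {Q : List V} {x0 : V} {k : ℕ} (hk : k < Q.length)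
    (h : k ∉ Sys.I G Q.length (fun i => Q.getD i x0) (comp G Q x0)) :
    Hh G (comp G Q x0) (Q.getD k x0) :=
  ⟨fun h => comp_not _ h (getD_mem x0 hk), fun c hc h2 => h (Sys.mem_I.2 ⟨hk, c, hc, h2⟩)⟩

theorem idx_spec {Q : List V} {x0 v : V} (h : v ∈ Q) :
    Q.idxOf v < Q.length ∧ Q.getD (Q.idxOf v) x0 = v := by
  have h1 := List.idxOf_lt_length_of_mem h
  refine ⟨h1, ?_⟩
  rw [List.getD_eq_getElem _ _ h1]
  exact List.getElem_idxOf h1

theorem I_of_nn {Q : List V} {x0 v : V} (h : Nn G (comp G Q x0) v) :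
    Q.idxOf v ∈ Sys.I G Q.length (fun i => Q.getD i x0) (comp G Q x0) ∧
      Q.getD (Q.idxOf v) x0 = v ∧ v ∈ Q := by
  obtain ⟨h1, c, hc, h2⟩ := h
  have hv : v ∈ Q := by
    by_contra hcon
    exact h1 (comp_closed hc h2 hcon)
  obtain ⟨h3, h4⟩ := idx_spec (x0 := x0) hv
  exact ⟨Sys.mem_I.2 ⟨h3, c, hc, by rw [h4]; exact h2⟩, h4, hv⟩

variable [Fintype V]

/-- the data of a longest path `P` which misses `a` -/
theorem mkDat (h5 : NoP5 G) {Q P : List V} {x0 a : V} (hP : Longest G P) (hx0 : x0 ∉ Q)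
    (haQ : a ∈ Q) (haP : a ∉ P) (hful : ∀ c ∈ comp G Q x0, G.Adj a c)
    (hmax : ∀ b, Nn G (comp G Q x0) b → ¬ G.Adj a b →
      (∃ z, Hh G (comp G Q x0) z ∧ G.Adj b z ∧ ¬ G.Adj a z) →
      hc G (comp G Q x0) b ≤ hc G (comp G Q x0) a) :
    Dat G (comp G Q x0) (comp G P a) {w | w ∈ P ∧ ∃ x ∈ comp G P a, G.Adj x w} a (suc P a) := by
  have SP := theSys hP a (G := G)
  have key : ∀ w ∈ {w | w ∈ P ∧ ∃ x ∈ comp G P a, G.Adj x w},
      P.idxOf w ∈ Sys.I G P.length (fun i => P.getD i a) (comp G P a) ∧ P.getD (P.idxOf w) a = w := by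
    rintro w ⟨h1, x, hx, h2⟩
    obtain ⟨h3, h4⟩ := idx_spec (x0 := a) h1
    exact ⟨Sys.mem_I.2 ⟨h3, x, hx, by rw [h4]; exact h2⟩, h4⟩
  refine ⟨h5, comp_conn x0, ⟨x0, self_comp hx0⟩, hful, fun h => comp_not _ h haQ, self_comp haP,
    ?_, ?_, ?_, ?_, ?_, hmax⟩
  · intro x hx v hv
    by_cases hvP : v ∈ P
    · exact Or.inr ⟨hvP, x, hx, hv⟩
    · exact Or.inl (comp_closed hx hv hvP)
  · intro w hw
    obtain ⟨h1, h2⟩ := key w hw
    have := SP.adj _ (SP.succ_lt h1)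
    rw [h2] at this
    exact this
  · intro w hw w' hw' h
    obtain ⟨h1, h2⟩ := key w hw
    obtain ⟨h3, h4⟩ := key w' hw'
    have h6 := SP.inj _ (SP.succ_lt h1) _ (SP.succ_lt h3) h
    have h7 : P.idxOf w = P.idxOf w' := by omega
    rw [h7, h4] at h2
    exact h2.symm
  · intro w hw w' hw' h
    obtain ⟨h1, -⟩ := key w hw
    obtain ⟨h3, -⟩ := key w' hw'
    obtain ⟨-, c, hc, hck⟩ := Sys.mem_I.1 h1
    obtain ⟨-, c', hc', hck'⟩ := Sys.mem_I.1 h3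
    rcases lt_trichotomy (P.idxOf w) (P.idxOf w') with h' | h' | h'
    · exact SP.h2 _ _ h' (SP.succ_lt h3) c hc c' hc' hck hck' h
    · unfold suc at h
      rw [h'] at h
      exact G.loopless.irrefl _ h
    · exact SP.h2 _ _ h' (SP.succ_lt h1) c' hc' c hc hck' hck h.symm
  · intro w hw x hx
    obtain ⟨h1, -⟩ := key w hw
    exact SP.notC (SP.succ_lt h1) (SP.succ_not h1) hx

theorem full_case (h5 : NoP5 G) {Q P : List V} {x0 a : V} (hQ : Longest G Q) (hP : Longest G P)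
    (hx0 : x0 ∉ Q) (haQ : a ∈ Q) (haP : a ∉ P) (hful : ∀ c ∈ comp G Q x0, G.Adj a c)
    (hmax : ∀ b, Nn G (comp G Q x0) b → ¬ G.Adj a b →
      (∃ z, Hh G (comp G Q x0) z ∧ G.Adj b z ∧ ¬ G.Adj a z) →
      hc G (comp G Q x0) b ≤ hc G (comp G Q x0) a)
    (hmeet : ∃ c ∈ comp G Q x0, c ∈ P) (hed : ∃ c ∈ comp G Q x0, ∃ c' ∈ comp G Q x0, G.Adj c c') :
    False := by
  have D := mkDat h5 hP hx0 haQ haP hful hmax
  have SQ := theSys hQ x0 (G := G)
  generalize hW : {w | w ∈ P ∧ ∃ x ∈ comp G P a, G.Adj x w} = W at D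
  generalize hs : suc P a = s at D
  obtain ⟨c0, hc0, hc0P⟩ := hmeet
  have hc0W : c0 ∈ W := by
    rw [← hW]
    exact ⟨hc0P, a, self_comp haP, hful c0 hc0⟩
  -- the successors on `Q`
  have hI := fun v (h : Nn G (comp G Q x0) v) => I_of_nn h
  have htH : ∀ b, Nn G (comp G Q x0) b → Hh G (comp G Q x0) (suc Q x0 b) := fun b hb =>
    hh_of_not_I (SQ.succ_lt (hI b hb).1) (SQ.succ_not (hI b hb).1)
  have htA : ∀ b, Nn G (comp G Q x0) b → G.Adj b (suc Q x0 b) := by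
    intro b hb
    have := SQ.adj _ (SQ.succ_lt (hI b hb).1)
    rw [(hI b hb).2.1] at this
    exact this
  have htI : ∀ b b', Nn G (comp G Q x0) b → Nn G (comp G Q x0) b' → suc Q x0 b = suc Q x0 b' →
      b = b' := by
    intro b b' hb hb' h
    have h6 := SQ.inj _ (SQ.succ_lt (hI b hb).1) _ (SQ.succ_lt (hI b' hb').1) h
    have h7 : Q.idxOf b = Q.idxOf b' := by omega
    have h8 := (hI b hb).2.1
    rw [h7, (hI b' hb').2.1] at h8
    exact h8.symm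
  have htN : ∀ b b', Nn G (comp G Q x0) b → Nn G (comp G Q x0) b' →
      ¬ G.Adj (suc Q x0 b) (suc Q x0 b') := by
    intro b b' hb hb' h
    obtain ⟨-, c, hc, hck⟩ := Sys.mem_I.1 (hI b hb).1
    obtain ⟨-, c', hc', hck'⟩ := Sys.mem_I.1 (hI b' hb').1
    rcases lt_trichotomy (Q.idxOf b) (Q.idxOf b') with h' | h' | h'
    · exact SQ.h2 _ _ h' (SQ.succ_lt (hI b' hb').1) c hc c' hc' hck hck' h
    · unfold suc at h
      rw [h'] at h
      exact G.loopless.irrefl _ h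
    · exact SQ.h2 _ _ h' (SQ.succ_lt (hI b hb).1) c' hc' c hc hck' hck h.symm
  generalize hC : comp G Q x0 = C at *
  set Bf : Finset V := univ.filter fun b => Bb G C W s b with hBf
  have hBm : ∀ b, b ∈ Bf ↔ Bb G C W s b := by intro r; simp [hBf]
  set B4 := Bf.filter fun b => ¬ G.Adj a (suc Q x0 b) with hB4
  set Y := Bf.filter fun b => G.Adj a (suc Q x0 b) with hY
  set Yg := Y.filter fun b => Bb G C W s (s (suc Q x0 b)) with hYg
  set Yo := Y.filter fun b => ¬ Bb G C W s (s (suc Q x0 b)) with hYo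
  have hc1 : Y.card + B4.card = Bf.card := card_filter_add_card_filter_not (s := Bf) _
  have hc2 : Yg.card + Yo.card = Y.card := card_filter_add_card_filter_not (s := Y) _
  have hmain := Pool.Agent.L7h12.LP.s_CL V G C _ W a s D ∅ (Yg.image (suc Q x0)) B4 (suc Q x0)
    (by simp) ?_ ?_ ?_ ?_ ?_
  rotate_left
  · intro z hz
    obtain ⟨b, hb, rfl⟩ := mem_image.1 hz
    obtain ⟨h1, h2⟩ := mem_filter.1 hb
    obtain ⟨h3, h4⟩ := mem_filter.1 h1
    have h6 := (hBm b).1 h3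
    exact ⟨htH b h6.1, h4, D.w4 h6 h4 (htA b h6.1), Or.inl h2⟩
  · intro b hb
    obtain ⟨h1, h2⟩ := mem_filter.1 hb
    have h6 := (hBm b).1 h1
    exact ⟨h6, htH b h6.1, h2, htA b h6.1⟩
  · intro b hb b' hb' h
    exact htI b b' ((hBm b).1 (mem_filter.1 (mem_coe.1 hb)).1).1
      ((hBm b').1 (mem_filter.1 (mem_coe.1 hb')).1).1 h
  · intro z hz b hb
    obtain ⟨b', hb', rfl⟩ := mem_image.1 hz
    exact htN b' b ((hBm b').1 (mem_filter.1 (mem_filter.1 hb').1).1).1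
      ((hBm b).1 (mem_filter.1 hb).1).1
  · intro b hb b' hb'
    exact htN b b' ((hBm b).1 (mem_filter.1 hb).1).1 ((hBm b').1 (mem_filter.1 hb').1).1
  have hZc : (Yg.image (suc Q x0)).card = Yg.card := by
    refine card_image_of_injOn ?_
    intro b hb b' hb' h
    exact htI b b' ((hBm b).1 (mem_filter.1 (mem_filter.1 (mem_coe.1 hb)).1).1).1
      ((hBm b').1 (mem_filter.1 (mem_filter.1 (mem_coe.1 hb')).1).1).1 h
  have hcard : (univ.filter fun c => c ∈ C ∧ c ∈ W).card ≤ Yo.card := by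
    rw [hZc, card_empty] at hmain
    change _ ≤ Bf.card + 0 at hmain
    omega
  have hYo' : ∀ b ∈ Yo, Bb G C W s b ∧ G.Adj a (suc Q x0 b) ∧ suc Q x0 b ∈ W ∧
      Uu G C W a s (s (suc Q x0 b)) := by
    intro b hb
    obtain ⟨h1, h2⟩ := mem_filter.1 hb
    obtain ⟨h3, h4⟩ := mem_filter.1 h1
    have h6 := (hBm b).1 h3
    have h7 := D.w4 h6 h4 (htA b h6.1)
    exact ⟨h6, h4, h7, (D.w3 (htH b h6.1) h7).resolve_left h2⟩
  have h1le : 1 ≤ (univ.filter fun c => c ∈ C ∧ c ∈ W).card := by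
    rw [Nat.succ_le_iff, card_pos]
    exact ⟨c0, by simp [hc0, hc0W]⟩
  obtain ⟨b0, hb0⟩ : Yo.Nonempty := by
    rw [← card_pos]
    omega
  obtain ⟨k1, k2, k3, k4⟩ := hYo' b0 hb0
  have hBne : ∃ b, Bb G C W s b := ⟨b0, k1⟩
  have hBful : ∀ b, Bb G C W s b → ∀ c ∈ C, G.Adj b c := fun b hb =>
    D.w5 (htH b0 k1.1) k2 k4 k3 hb
  have hCW := D.cW hBne hBful
  have h2le : 2 ≤ (univ.filter fun c => c ∈ C ∧ c ∈ W).card := by
    obtain ⟨c, hc, c', hc', hcc⟩ := hed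
    rw [Nat.succ_le_iff, one_lt_card]
    exact ⟨c, by simp [hc, hCW c hc], c', by simp [hc', hCW c' hc'], hcc.ne⟩
  obtain ⟨b1, hb1, b2, hb2, hne⟩ := one_lt_card.1 (show 1 < Yo.card by omega)
  obtain ⟨m1, m2, m3, m4⟩ := hYo' b1 hb1
  obtain ⟨n1, n2, n3, n4⟩ := hYo' b2 hb2
  have hvv := htN b1 b2 m1.1 n1.1
  obtain ⟨r, hr, hr1, hr2⟩ : ∃ r, Uu G C W a s r ∧ G.Adj (suc Q x0 b1) r ∧
      G.Adj (suc Q x0 b2) r := by
    by_cases h6 : G.Adj (suc Q x0 b2) (s (suc Q x0 b1))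
    · exact ⟨_, m4, D.sadj _ m3, h6⟩
    by_cases h7 : G.Adj (suc Q x0 b1) (s (suc Q x0 b2))
    · exact ⟨_, n4, h7, D.sadj _ n3⟩
    exact (D.w8 (htH b1 m1.1) m2 n2 hvv m4 n4 (D.sadj _ m3) h6 (D.sadj _ n3) h7).elim
  have hij : Q.idxOf b1 ≠ Q.idxOf b2 := by
    intro h
    have h8 := (hI b1 m1.1).2.1
    rw [h, (hI b2 n1.1).2.1] at h8
    exact hne h8.symm
  have hlt1 : Q.idxOf b1 + 1 < Q.length := by
    have := (hI b1 m1.1).1
    rw [← hC] at this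
    exact (theSys hQ x0 (G := G)).succ_lt this
  have hlt2 : Q.idxOf b2 + 1 < Q.length := by
    have := (hI b2 n1.1).1
    rw [← hC] at this
    exact (theSys hQ x0 (G := G)).succ_lt this
  obtain ⟨T, t1, t2, t3, t4⟩ := Pool.Agent.L7h46.LP.s_INIT V G C {v | v = a ∨ Bb G C W s v} Q x0 hQ
    hx0 hC.symm b1 (suc Q x0 b1) b2 (suc Q x0 b2) (Q.idxOf b1) (Q.idxOf b2) hlt1 hlt2 hij
    (hI b1 m1.1).2.1 rfl (hI b2 n1.1).2.1 rfl (Or.inr m1) (Or.inr n1) m1.1 n1.1 (htH b1 m1.1)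
    (htH b2 n1.1)
  have hCQ : ∀ x ∈ C, x ∉ Q := by
    rw [← hC]
    exact comp_not
  have TT := s_TT.{u} Pool.Agent.L7h12.LP.s_CL Pool.Agent.L7h46.LP.s_NC Pool.Agent.L7h46.LP.s_SE
  rcases t4 with ⟨t4, t5⟩ | ⟨t4, t5⟩
  · exact TT V G C _ W a s Q D hQ hCQ (fun v hv => (hI v hv).2.2) hBful hBne hCW hed T _ _ r t1 t2
      t3 t4 t5 (htH b1 m1.1) m2 (htH b2 n1.1) n2 hr hr1 hr2
  · exact TT V G C _ W a s Q D hQ hCQ (fun v hv => (hI v hv).2.2) hBful hBne hCW hed T _ _ r t1 t2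
      t3 t4 t5 (htH b2 n1.1) n2 (htH b1 m1.1) m2 hr hr2 hr1

end Pool.Agent.L7h86.LP
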