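import Pool.Agent.L7h86.LP.Stm

/-!
# Rotations of chains
-/

set_option autoImplicit false

namespace Pool.Agent.L7h86.LP

open Classical

universe u

section gen

variable {α : Type u} {ρ : α → α → Prop}

theorem chain_rev' (hs : ∀ x y, ρ x y → ρ y x) {A : List α} (h : A.IsChain ρ) :
    A.reverse.IsChain ρ := by
  rw [List.isChain_reverse]
  exact h.imp fun _ _ h => hs _ _ h

theorem rot1 (hs : ∀ x y, ρ x y → ρ y x) {A Z : List α} (h : (A ++ Z).IsChain ρ)
    (h1 : ∀ x ∈ Z.getLast?, ∀ y ∈ A.getLast?, ρ x y) : (A ++ Z.reverse).IsChain ρ := by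
  rw [List.isChain_append] at h ⊢
  refine ⟨h.1, chain_rev' hs h.2.1, ?_⟩
  intro x hx y hy
  rw [List.head?_reverse] at hy
  exact hs _ _ (h1 y hy x hx)

theorem rot2 (hs : ∀ x y, ρ x y → ρ y x) {A B Z : List α} (hA : A ≠ [])
    (h : (A ++ (B ++ Z)).IsChain ρ) (h1 : ∀ x ∈ Z.getLast?, ∀ y ∈ A.getLast?, ρ x y)
    (h2 : ∀ x ∈ A.head?, ∀ y ∈ B.getLast?, ρ x y) :
    (Z ++ (A.reverse ++ B.reverse)).IsChain ρ := by
  rw [List.isChain_append, List.isChain_append] at h
  rw [List.isChain_append, List.isChain_append]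
  refine ⟨h.2.1.2.1, ⟨chain_rev' hs h.1, chain_rev' hs h.2.1.1, ?_⟩, ?_⟩
  · intro x hx y hy
    rw [List.getLast?_reverse] at hx
    rw [List.head?_reverse] at hy
    exact h2 x hx y hy
  · intro x hx y hy
    have hne : A.reverse ≠ [] := by simpa using hA
    rw [List.head?_append_of_ne_nil _ hne, List.head?_reverse] at hy
    exact h1 x hx y hy

/-- the three parts of a list -/
theorem split3 (T : List α) (x0 : α) {i j : ℕ} (hij : i < j) (hj : j + 1 < T.length) :
    ∃ A B Z : List α, T = A ++ (B ++ Z) ∧ A ≠ [] ∧ B ≠ [] ∧ Z ≠ [] ∧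
      A.head? = T.head? ∧ A.getLast? = some (T.getD i x0) ∧ B.head? = some (T.getD (i + 1) x0) ∧
      B.getLast? = some (T.getD j x0) ∧ Z.head? = some (T.getD (j + 1) x0) ∧
      Z.getLast? = T.getLast? := by
  refine ⟨T.take (i + 1), (T.drop (i + 1)).take (j - i), T.drop (j + 1), ?_, ?_, ?_, ?_, ?_, ?_, ?_,
    ?_, ?_, ?_⟩
  · have h2 : T.drop (j + 1) = (T.drop (i + 1)).drop (j - i) := by
      rw [List.drop_drop]
      congr 1
      omega
    rw [h2, List.take_append_drop, List.take_append_drop]
  · rw [← List.length_pos_iff, List.length_take]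
    omega
  · rw [← List.length_pos_iff, List.length_take, List.length_drop]
    omega
  · rw [← List.length_pos_iff, List.length_drop]
    omega
  · rw [List.head?_eq_getElem?, List.head?_eq_getElem?, List.getElem?_take_of_lt (by omega)]
  · rw [List.getLast?_eq_getElem?, List.length_take, List.getElem?_take_of_lt (by omega),
      show min (i + 1) T.length - 1 = i by omega, List.getElem?_eq_getElem (by omega),
      List.getD_eq_getElem _ _ (by omega)]
  · rw [List.head?_eq_getElem?, List.getElem?_take_of_lt (by omega), List.getElem?_drop,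
      Nat.add_zero, List.getElem?_eq_getElem (by omega), List.getD_eq_getElem _ _ (by omega)]
  · rw [List.getLast?_eq_getElem?, List.length_take, List.length_drop,
      List.getElem?_take_of_lt (by omega), List.getElem?_drop,
      show i + 1 + (min (j - i) (T.length - (i + 1)) - 1) = j by omega,
      List.getElem?_eq_getElem (by omega), List.getD_eq_getElem _ _ (by omega)]
  · rw [List.head?_eq_getElem?, List.getElem?_drop, Nat.add_zero,
      List.getElem?_eq_getElem (by omega), List.getD_eq_getElem _ _ (by omega)]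
  · rw [List.getLast?_eq_getElem?, List.getLast?_eq_getElem?, List.length_drop, List.getElem?_drop]
    congr 1
    omega

theorem split2 (T : List α) (x0 : α) {i : ℕ} (hi : i + 1 < T.length) :
    ∃ A Z : List α, T = A ++ Z ∧ A ≠ [] ∧ Z ≠ [] ∧
      A.head? = T.head? ∧ A.getLast? = some (T.getD i x0) ∧ Z.head? = some (T.getD (i + 1) x0) ∧
      Z.getLast? = T.getLast? := by
  refine ⟨T.take (i + 1), T.drop (i + 1), (List.take_append_drop _ _).symm, ?_, ?_, ?_, ?_, ?_, ?_⟩
  · rw [← List.length_pos_iff, List.length_take]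
    omega
  · rw [← List.length_pos_iff, List.length_drop]
    omega
  · rw [List.head?_eq_getElem?, List.head?_eq_getElem?, List.getElem?_take_of_lt (by omega)]
  · rw [List.getLast?_eq_getElem?, List.length_take, List.getElem?_take_of_lt (by omega),
      show min (i + 1) T.length - 1 = i by omega, List.getElem?_eq_getElem (by omega),
      List.getD_eq_getElem _ _ (by omega)]
  · rw [List.head?_eq_getElem?, List.getElem?_drop, Nat.add_zero,
      List.getElem?_eq_getElem (by omega), List.getD_eq_getElem _ _ (by omega)]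
  · rw [List.getLast?_eq_getElem?, List.getLast?_eq_getElem?, List.length_drop, List.getElem?_drop]
    congr 1
    omega

end gen

variable {V : Type u} {G : SimpleGraph V}

theorem R_symm {J : Set V} : ∀ x y, R G J x y → R G J y x := by
  rintro (x | _ | _) (y | _ | _) h
  · exact SimpleGraph.Adj.symm h
  all_goals exact h

/-- a chain on `Q`, `∞` and the contracted edge from `y` to `z` without consecutive attachments -/
structure Good (G : SimpleGraph V) (C J : Set V) (Q : List V) (T : List (K V)) (y z : V) : Prop where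
  ch : T.IsChain (R G J)
  nn : T.IsChain (fun x y => ¬ (isN G C x ∧ isN G C y))
  pm : T.Perm (K.om :: K.inf :: Q.map K.v)
  hd : T.head? = some (K.v y)
  lt : T.getLast? = some (K.v z)

variable {C J : Set V} {Q : List V} {T : List (K V)} {y z : V}

theorem Good.rev (h : Good G C J Q T y z) : Good G C J Q T.reverse z y where
  ch := chain_rev' R_symm h.ch
  nn := chain_rev' (fun _ _ h h' => h ⟨h'.2, h'.1⟩) h.nn
  pm := (List.reverse_perm T).trans h.pm
  hd := by rw [List.head?_reverse]; exact h.lt
  lt := by rw [List.getLast?_reverse]; exact h.hd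

/-- the hypothesis of `S_NC` for a fixed pair -/
def NoCyc (G : SimpleGraph V) (C J : Set V) (Q : List V) : Prop :=
  ∀ (T : List (K V)) (Q' : List V), T.IsChain (R G J) →
  T.Perm (K.om :: K.inf :: Q'.map K.v) → (∀ x ∈ Q', x ∉ C) → Q'.Nodup → Q.length ≤ Q'.length →
  ∀ x y, T.head? = some x → T.getLast? = some y → ¬ R G J y x

variable (hN : NoCyc G C J Q) (hQ : Q.Nodup) (hCQ : ∀ x ∈ Q, x ∉ C)

include hN hQ hCQ

theorem Good.tc (h : Good G C J Q T y z) {i : ℕ} (hi : i + 1 < T.length)
    (h1 : R G J (K.v z) (T.getD i K.inf)) : ¬ R G J (K.v y) (T.getD (i + 1) K.inf) := by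
  obtain ⟨A, Z, e1, e2, e3, e4, e5, e6, e7⟩ := split2 T K.inf hi
  intro h2
  have hch := h.ch
  rw [e1] at hch
  have h3 := rot1 R_symm hch (by
    intro x hx w hw
    rw [e7, h.lt] at hx
    rw [e5] at hw
    simp only [Option.mem_def, Option.some.injEq] at hx hw
    subst hx hw
    exact h1)
  refine hN (A ++ Z.reverse) Q h3 ?_ hCQ hQ le_rfl (K.v y) (T.getD (i + 1) K.inf) ?_ ?_ (R_symm _ _ h2)
  · refine List.Perm.trans ?_ h.pm
    rw [e1]
    exact List.Perm.append_left _ (List.reverse_perm Z)
  · rw [List.head?_append_of_ne_nil _ e2, e4, h.hd]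
  · have : Z.reverse ≠ [] := by simpa using e3
    rw [List.getLast?_append_of_ne_nil _ this, List.getLast?_reverse, e6]

theorem Good.td (h : Good G C J Q T y z) {i j : ℕ} (hij : i < j) (hj : j + 1 < T.length)
    (h1 : R G J (K.v z) (T.getD i K.inf)) (h2 : R G J (K.v y) (T.getD j K.inf)) :
    ¬ R G J (T.getD (i + 1) K.inf) (T.getD (j + 1) K.inf) ∧
    (¬ isN G C (K.v y) → ¬ isN G C (K.v z) → ∀ w w', T.getD (i + 1) K.inf = K.v w →
      T.getD (j + 1) K.inf = K.v w' → ∃ T', Good G C J Q T' w' w) := by
  obtain ⟨A, B, Z, e1, e2, e3, e4, e5, e6, e7, e8, e9, e10⟩ := split3 T K.inf hij hj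
  have hch := h.ch
  rw [e1] at hch
  have h3 := rot2 R_symm e2 hch (by
    intro x hx w hw
    rw [e10, h.lt] at hx
    rw [e6] at hw
    simp only [Option.mem_def, Option.some.injEq] at hx hw
    subst hx hw
    exact h1) (by
    intro x hx w hw
    rw [e5, h.hd] at hx
    rw [e8] at hw
    simp only [Option.mem_def, Option.some.injEq] at hx hw
    subst hx hw
    exact h2)
  have hpm : (Z ++ (A.reverse ++ B.reverse)).Perm (K.om :: K.inf :: Q.map K.v) := by
    refine List.Perm.trans ?_ h.pm
    rw [e1, ← List.append_assoc A B Z]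
    refine List.Perm.trans List.perm_append_comm ?_
    exact List.Perm.append_right _ (List.Perm.append (List.reverse_perm A) (List.reverse_perm B))
  have hhd : (Z ++ (A.reverse ++ B.reverse)).head? = some (T.getD (j + 1) K.inf) := by
    rw [List.head?_append_of_ne_nil _ e4, e9]
  have hlt : (Z ++ (A.reverse ++ B.reverse)).getLast? = some (T.getD (i + 1) K.inf) := by
    have h4 : B.reverse ≠ [] := by simpa using e3
    have h5 : A.reverse ++ B.reverse ≠ [] := by simp [e3]
    rw [List.getLast?_append_of_ne_nil _ h5, List.getLast?_append_of_ne_nil _ h4,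
      List.getLast?_reverse, e7]
  refine ⟨hN _ Q h3 hpm hCQ hQ le_rfl _ _ hhd hlt, ?_⟩
  intro ny nz w w' hw hw'
  refine ⟨_, h3, ?_, hpm, by rw [hhd, hw'], by rw [hlt, hw]⟩
  have hnn := h.nn
  rw [e1] at hnn
  refine rot2 (ρ := fun x y => ¬ (isN G C x ∧ isN G C y)) (fun _ _ h h' => h ⟨h'.2, h'.1⟩) e2 hnn ?_ ?_
  · intro x hx v hv
    rw [e10, h.lt] at hx
    simp only [Option.mem_def, Option.some.injEq] at hx
    subst hx
    exact fun h => nz h.1
  · intro x hx v hv
    rw [e5, h.hd] at hx
    simp only [Option.mem_def, Option.some.injEq] at hx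
    subst hx
    exact fun h => ny h.1

end Pool.Agent.L7h86.LP
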