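import Pool.Agent.L7h86.LP.Wl
import Pool.Agent.L7h86.LP.Lst

/-!
# The contradiction
-/

set_option autoImplicit false

namespace Pool.Agent.L7h86.LP

open Finset Classical
open Pool.Agent.K7.H44.LP (NoP5 Longest comp NC phi nc Sys)

universe u

variable {V : Type u} [Fintype V] {G : SimpleGraph V} {C C' W : Set V} {a : V} {s : V → V}

/-- number of common neighbours in `U` -/
noncomputable def mu (G : SimpleGraph V) (C W : Set V) (a : V) (s : V → V) (y z : V) : ℕ :=
  (univ.filter fun r => Uu G C W a s r ∧ G.Adj y r ∧ G.Adj z r).card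

theorem mu_comm (y z : V) : mu G C W a s y z = mu G C W a s z y := by
  unfold mu
  congr 1
  ext r
  simp only [mem_filter, mem_univ, true_and]
  tauto

/-- the set `J = B ∪ {a}` -/
def Jj (G : SimpleGraph V) (C W : Set V) (a : V) (s : V → V) : Set V := {v | v = a ∨ Bb G C W s v}

theorem step (hCL : S_CL.{u}) (hSE : S_SE.{u}) {Q : List V} (D : Dat G C C' W a s)
    (hN : NoCyc G C (Jj G C W a s) Q)
    (hNr : ∀ r, r ∉ Q → r ∉ C → NoCyc G C (Jj G C W a s) (r :: Q))
    (hQ : Longest G Q) (hCQ : ∀ x ∈ C, x ∉ Q) (hNQ : ∀ v, Nn G C v → v ∈ Q)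
    (hful : ∀ b, Bb G C W s b → ∀ c ∈ C, G.Adj b c) (hB : ∃ b, Bb G C W s b)
    (hCW : ∀ c ∈ C, c ∈ W) (hed : ∃ c ∈ C, ∃ c' ∈ C, G.Adj c c')
    {T : List (K V)} {y z : V} (hT : Good G C (Jj G C W a s) Q T y z)
    (hy : Hh G C y) (hay : G.Adj a y) (hz : Hh G C z) (haz : G.Adj a z)
    {r0 : V} (hr0 : Uu G C W a s r0) (hyr0 : G.Adj y r0) (hzr0 : G.Adj z r0)
    (hsub : ∀ r, Uu G C W a s r → G.Adj y r → G.Adj z r) :
    ∃ (T' : List (K V)) (y' z' r' : V), Good G C (Jj G C W a s) Q T' y' z' ∧ Hh G C y' ∧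
      G.Adj a y' ∧ Hh G C z' ∧ G.Adj a z' ∧ Uu G C W a s r' ∧ G.Adj y' r' ∧ G.Adj z' r' ∧
      mu G C W a s y z < mu G C W a s y' z' := by
  by_contra hno
  push Not at hno
  have hQnd := hQ.2.1
  have hCQ' : ∀ x ∈ Q, x ∉ C := fun x hx hxC => hCQ x hxC hx
  have haN : Nn G C a := by
    obtain ⟨c, hc⟩ := D.ne
    exact ⟨D.aC, c, hc, (D.full c hc).symm⟩
  have hTnd : T.Nodup := by
    refine hT.pm.nodup_iff.2 ?_
    rw [List.nodup_cons, List.nodup_cons]
    refine ⟨by simp, by simp, ?_⟩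
    exact hQnd.map (fun x y h => by simpa using h)
  have hmemT : ∀ v, K.v v ∈ T ↔ v ∈ Q := by
    intro v
    rw [hT.pm.mem_iff]
    simp
  have hlenT : T.length = Q.length + 2 := by
    rw [hT.pm.length_eq]
    simp
  have hT0 : T.getD 0 K.inf = K.v y := by
    have := hT.hd
    rw [List.head?_eq_getElem?, List.getElem?_eq_getElem (by omega)] at this
    rw [List.getD_eq_getElem _ _ (by omega)]
    simpa using this
  have hTl : T.getD (T.length - 1) K.inf = K.v z := by
    have := hT.lt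
    rw [List.getLast?_eq_getElem?, List.getElem?_eq_getElem (by omega)] at this
    rw [List.getD_eq_getElem _ _ (by omega)]
    simpa using this
  have hinjT : ∀ i < T.length, ∀ j < T.length, T.getD i K.inf = T.getD j K.inf → i = j := by
    intro i hi j hj hij
    rw [List.getD_eq_getElem _ _ hi, List.getD_eq_getElem _ _ hj] at hij
    exact (List.Nodup.getElem_inj_iff hTnd).1 hij
  have hyN : ¬ isN G C (K.v y) := not_hh_nn hy
  have hzN : ¬ isN G C (K.v z) := not_hh_nn hz
  have hyJ : ∀ j ∈ Jj G C W a s, G.Adj y j := by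
    rintro j (rfl | hj)
    · exact hay.symm
    · exact (D.w6 hj hy hay hr0 hyr0).symm
  have hzJ : ∀ j ∈ Jj G C W a s, G.Adj z j := by
    rintro j (rfl | hj)
    · exact haz.symm
    · exact (D.w6 hj hz haz hr0 hzr0).symm
  have hJfull : ∀ j ∈ Jj G C W a s, ∀ c ∈ C, G.Adj j c := by
    rintro j (rfl | hj) c hc
    · exact D.full c hc
    · exact hful j hj c hc
  set Γ : Finset V := univ.filter fun r => Uu G C W a s r ∧ G.Adj y r with hΓ
  set Bf : Finset V := univ.filter fun b => Bb G C W s b with hBf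
  have hΓm : ∀ r, r ∈ Γ ↔ Uu G C W a s r ∧ G.Adj y r := by intro r; simp [hΓ]
  have hBm : ∀ b, b ∈ Bf ↔ Bb G C W s b := by intro r; simp [hBf]
  have hdis : Disjoint Bf Γ := by
    rw [disjoint_left]
    intro x hx hx'
    exact not_hh_nn ((hΓm x).1 hx').1.1 ((hBm x).1 hx).1
  set X := Bf ∪ Γ with hX
  have hXc : X.card = Bf.card + Γ.card := card_union_of_disjoint hdis
  -- the elements of `X`
  have hXy : ∀ e ∈ X, G.Adj y e ∧ G.Adj z e ∧ ¬ G.Adj a e ∧ e ∈ Q := by
    intro e he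
    rcases mem_union.1 he with he | he
    · have hb := (hBm e).1 he
      exact ⟨hyJ e (Or.inr hb), hzJ e (Or.inr hb), D.ab hb, hNQ e hb.1⟩
    · obtain ⟨h1, h2⟩ := (hΓm e).1 he
      refine ⟨h2, hsub e h1 h2, h1.2.1, ?_⟩
      by_contra heQ
      refine hNr e heQ h1.1.1 (K.v e :: T) (e :: Q) ?_ ?_ ?_ ?_ le_rfl (K.v e) (K.v z) ?_ ?_ ?_
      · rw [List.isChain_cons]
        refine ⟨?_, hT.ch⟩
        intro w hw
        rw [hT.hd] at hw
        simp only [Option.mem_def, Option.some.injEq] at hw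
        subst hw
        exact h2.symm
      · have h3 := hT.pm.cons (K.v e)
        refine h3.trans ?_
        rw [List.map_cons]
        exact (List.Perm.swap _ _ _).trans ((List.Perm.swap _ _ _).cons _)
      · intro x hx
        rcases List.mem_cons.1 hx with rfl | hx
        · exact h1.1.1
        · exact hCQ' x hx
      · exact List.nodup_cons.2 ⟨heQ, hQnd⟩
      · rfl
      · rw [List.getLast?_cons, hT.lt]
        rfl
      · exact hsub e h1 h2
  have hk : ∀ e ∈ X, ∃ k, k + 1 < T.length ∧ T.getD k K.inf = K.v e := by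
    intro e he
    obtain ⟨h1, h2, h3, h4⟩ := hXy e he
    obtain ⟨k, hk, hk'⟩ := List.getElem_of_mem ((hmemT e).2 h4)
    refine ⟨k, ?_, by rw [List.getD_eq_getElem _ _ hk]; exact hk'⟩
    by_contra hcon
    have hkl : k = T.length - 1 := by omega
    rw [← List.getD_eq_getElem T K.inf hk, hkl, hTl] at hk'
    have hze : z = e := by simpa using hk'
    rw [hze] at haz
    exact h3 haz
  choose! k hk1 hk2 using hk
  have htc : ∀ e ∈ X, ¬ R G (Jj G C W a s) (K.v y) (T.getD (k e + 1) K.inf) := by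
    intro e he
    refine hT.tc hN hQnd hCQ' (hk1 e he) ?_
    rw [hk2 e he]
    exact (hXy e he).2.1
  have htd : ∀ e ∈ X, ∀ e' ∈ X, e ≠ e' →
      ¬ R G (Jj G C W a s) (T.getD (k e + 1) K.inf) (T.getD (k e' + 1) K.inf) ∧
      ∀ w w', T.getD (k e + 1) K.inf = K.v w → T.getD (k e' + 1) K.inf = K.v w' →
        ∃ T', Good G C (Jj G C W a s) Q T' w' w := by
    intro e he e' he' hne
    have hkne : k e ≠ k e' := by
      intro h
      have h1 := hk2 e he
      rw [h, hk2 e' he'] at h1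
      exact hne (by simpa using h1.symm)
    rcases Nat.lt_or_gt_of_ne hkne with hlt | hlt
    · obtain ⟨h1, h2⟩ := hT.td hN hQnd hCQ' hlt (hk1 e' he') (by
        rw [hk2 e he]; exact (hXy e he).2.1) (by rw [hk2 e' he']; exact (hXy e' he').1)
      exact ⟨h1, fun w w' => h2 hyN hzN w w'⟩
    · obtain ⟨h1, h2⟩ := hT.td hN hQnd hCQ' hlt (hk1 e he) (by
        rw [hk2 e' he']; exact (hXy e' he').2.1) (by rw [hk2 e he]; exact (hXy e he).1)
      refine ⟨fun h => h1 (R_symm _ _ h), fun w w' hw hw' => ?_⟩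
      obtain ⟨T', hT'⟩ := h2 hyN hzN w' w hw' hw
      exact ⟨T'.reverse, hT'.rev⟩
  -- the kinds of successors
  have hkind : ∀ e ∈ X, (T.getD (k e + 1) K.inf = K.om ∧ e ∈ Bf) ∨
      ∃ w, T.getD (k e + 1) K.inf = K.v w ∧ Hh G C w ∧ G.Adj e w ∧ (G.Adj a w ∨ e ∈ Bf) ∧
        (G.Adj a w → w ∈ W) := by
    intro e he
    have h1 := hk1 e he
    have hadj : R G (Jj G C W a s) (K.v e) (T.getD (k e + 1) K.inf) := by
      rw [← hk2 e he, List.getD_eq_getElem _ _ h1, List.getD_eq_getElem _ _ (by omega)]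
      exact (List.isChain_iff_getElem.1 hT.ch) (k e) (by omega)
    have hnn : ¬ (isN G C (K.v e) ∧ isN G C (T.getD (k e + 1) K.inf)) := by
      rw [← hk2 e he, List.getD_eq_getElem _ _ h1, List.getD_eq_getElem _ _ (by omega)]
      exact (List.isChain_iff_getElem.1 hT.nn) (k e) (by omega)
    have hmem : T.getD (k e + 1) K.inf ∈ T := by
      rw [List.getD_eq_getElem _ _ h1]
      exact List.getElem_mem h1
    have hyt := htc e he
    generalize hτ : T.getD (k e + 1) K.inf = t at *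
    rcases t with w | _ | _
    · right
      have hwQ : w ∈ Q := (hmemT w).1 hmem
      have hadj' : G.Adj e w := hadj
      refine ⟨w, rfl, ?_⟩
      rcases mem_union.1 he with heB | heΓ
      · have hb := (hBm e).1 heB
        have hwN : ¬ Nn G C w := fun h => hnn ⟨hb.1, h⟩
        exact ⟨hh_or_nn (hCQ' w hwQ) hwN, hadj', Or.inr heB, fun haw => D.w4 hb haw hadj'⟩
      · obtain ⟨h2, h3⟩ := (hΓm e).1 heΓ
        have hwN : ¬ Nn G C w := by
          intro hwN
          obtain ⟨A, Z, e1, e2, e3, e4, e5, e6, e7⟩ := split2 T K.inf h1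
          have hch := hT.ch
          rw [e1] at hch
          have h4 := rot1 R_symm hch (by
            intro x hx v hv
            rw [e7, hT.lt] at hx
            rw [e5, hk2 e he] at hv
            simp only [Option.mem_def, Option.some.injEq] at hx hv
            subst hx hv
            exact (hXy e he).2.1)
          refine hSE V G C (Jj G C W a s) Q hQ hCQ hJfull (A ++ Z.reverse) y w h4 ?_ ?_ ?_ hwN hyJ
          · refine List.Perm.trans ?_ hT.pm
            rw [e1]
            exact List.Perm.append_left _ (List.reverse_perm Z)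
          · rw [List.head?_append_of_ne_nil _ e2, e4, hT.hd]
          · have : Z.reverse ≠ [] := by simpa using e3
            rw [List.getLast?_append_of_ne_nil _ this, List.getLast?_reverse, e6, hτ]
        have hwH := hh_or_nn (hCQ' w hwQ) hwN
        have haw : G.Adj a w := by
          by_contra haw
          exact hyt (D.w7 hy hay h2.1 h2.2.1 hwH haw hadj' h3)
        exact ⟨hwH, hadj', Or.inl haw, fun _ => D.w6W hB hwH haw h2 hadj'.symm⟩
    · exact absurd trivial hyt
    · left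
      refine ⟨rfl, ?_⟩
      have heJ : e ∈ Jj G C W a s := hadj
      rcases mem_union.1 he with heB | heΓ
      · exact heB
      · exfalso
        have h2 := ((hΓm e).1 heΓ).1.1
        rcases heJ with rfl | hb
        · exact not_hh_nn h2 haN
        · exact not_hh_nn h2 hb.1
  -- the successor as a vertex
  have hu : ∀ e, ∃ w, (e ∈ X ∧ T.getD (k e + 1) K.inf ≠ K.om) → T.getD (k e + 1) K.inf = K.v w ∧
      Hh G C w ∧ G.Adj e w ∧ (G.Adj a w ∨ e ∈ Bf) ∧ (G.Adj a w → w ∈ W) := by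
    intro e
    by_cases he : e ∈ X ∧ T.getD (k e + 1) K.inf ≠ K.om
    · rcases hkind e he.1 with ⟨h1, -⟩ | ⟨w, hw⟩
      · exact absurd h1 he.2
      · exact ⟨w, fun _ => hw⟩
    · exact ⟨a, fun h => absurd h he⟩
  choose t ht using hu
  have hinj : ∀ e ∈ X, ∀ e' ∈ X, T.getD (k e + 1) K.inf = T.getD (k e' + 1) K.inf → e = e' := by
    intro e he e' he' h
    have h1 := hinjT _ (hk1 e he) _ (hk1 e' he') h
    have h2 : k e = k e' := by omega
    have h3 := hk2 e he
    rw [h2, hk2 e' he'] at h3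
    simpa using h3.symm
  set BC := X.filter fun e => T.getD (k e + 1) K.inf = K.om with hBC
  set Y := X.filter fun e => ¬ T.getD (k e + 1) K.inf = K.om with hY
  set B4 := Y.filter fun e => ¬ G.Adj a (t e) with hB4
  set Y' := Y.filter fun e => G.Adj a (t e) with hY'
  set Eg := Y'.filter fun e => Bb G C W s (s (t e)) ∨ s (t e) ∈ Γ with hEg
  set Eo := Y'.filter fun e => ¬ (Bb G C W s (s (t e)) ∨ s (t e) ∈ Γ) with hEo
  have hc1 : BC.card + Y.card = X.card := card_filter_add_card_filter_not (s := X) _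
  have hc2 : Y'.card + B4.card = Y.card := card_filter_add_card_filter_not (s := Y) _
  have hc3 : Eg.card + Eo.card = Y'.card := card_filter_add_card_filter_not (s := Y') _
  have hYX : ∀ e ∈ Y, e ∈ X ∧ T.getD (k e + 1) K.inf ≠ K.om := fun e he => mem_filter.1 he
  have hBC1 : BC.card ≤ 1 := by
    rw [card_le_one]
    intro e he e' he'
    obtain ⟨h1, h2⟩ := mem_filter.1 he
    obtain ⟨h3, h4⟩ := mem_filter.1 he'
    exact hinj e h1 e' h3 (h2.trans h4.symm)
  have hEo1 : Eo.card ≤ 1 := by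
    rw [card_le_one]
    intro e he e' he'
    by_contra hne
    obtain ⟨h1, h2⟩ := mem_filter.1 he
    obtain ⟨h1', h2'⟩ := mem_filter.1 he'
    obtain ⟨h3, h4⟩ := mem_filter.1 h1
    obtain ⟨h3', h4'⟩ := mem_filter.1 h1'
    have h5 := hYX e h3
    have h5' := hYX e' h3'
    obtain ⟨a1, a2, a3, a4, a5⟩ := ht e h5
    obtain ⟨b1, b2, b3, b4, b5⟩ := ht e' h5'
    push Not at h2 h2'
    obtain ⟨c1, c2⟩ := htd e h5.1 e' h5'.1 hne
    rw [a1, b1] at c1
    obtain ⟨T', hT'⟩ := c2 _ _ a1 b1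
    have hw1 := (D.w3 a2 (a5 h4)).resolve_left h2.1
    have hw2 := (D.w3 b2 (b5 h4')).resolve_left h2'.1
    have hy1 : ¬ G.Adj y (t e) := by
      have := htc e h5.1
      rwa [a1] at this
    have hy2 : ¬ G.Adj y (t e') := by
      have := htc e' h5'.1
      rwa [b1] at this
    have s1 := D.sadj _ (a5 h4)
    have s2 := D.sadj _ (b5 h4')
    have hys1 : ¬ G.Adj y (s (t e)) := fun h => h2.2 ((hΓm _).2 ⟨hw1, h⟩)
    have hys2 : ¬ G.Adj y (s (t e')) := fun h => h2'.2 ((hΓm _).2 ⟨hw2, h⟩)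
    -- all of `Γ` is adjacent to both
    have g1 : ∀ r, Uu G C W a s r → G.Adj y r → G.Adj (t e) r := by
      intro r hr hyr
      by_contra h
      exact D.w8 hy hay h4 hy1 hr hw1 hyr h s1 hys1
    have g2 : ∀ r, Uu G C W a s r → G.Adj y r → G.Adj (t e') r := by
      intro r hr hyr
      by_contra h
      exact D.w8 hy hay h4' hy2 hr hw2 hyr h s2 hys2
    -- one more common neighbour
    obtain ⟨r1, hr1, f1, f2, f3⟩ : ∃ r1, Uu G C W a s r1 ∧ ¬ G.Adj y r1 ∧ G.Adj (t e) r1 ∧
        G.Adj (t e') r1 := by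
      by_cases h6 : G.Adj (t e') (s (t e))
      · exact ⟨_, hw1, hys1, s1, h6⟩
      by_cases h7 : G.Adj (t e) (s (t e'))
      · exact ⟨_, hw2, hys2, h7, s2⟩
      exact (D.w8 a2 h4 h4' c1 hw1 hw2 s1 h6 s2 h7).elim
    have h8 := hno T' (t e') (t e) r1 hT' b2 h4' a2 h4 hr1 f3 f2
    have h9 : mu G C W a s y z < mu G C W a s (t e') (t e) := by
      unfold mu
      refine card_lt_card ⟨?_, ?_⟩
      · intro r hr
        simp only [mem_filter, mem_univ, true_and] at hr ⊢
        exact ⟨hr.1, g2 r hr.1 hr.2.1, g1 r hr.1 hr.2.1⟩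
      · intro h
        have h10 : r1 ∈ univ.filter fun r => Uu G C W a s r ∧ G.Adj (t e') r ∧ G.Adj (t e) r := by
          simp only [mem_filter, mem_univ, true_and]
          exact ⟨hr1, f3, f2⟩
        have h11 := h h10
        simp only [mem_filter, mem_univ, true_and] at h11
        exact f1 h11.2.1
    omega
  -- the count
  have hyim : y ∉ Eg.image t := by
    intro h
    obtain ⟨e, he, hey⟩ := mem_image.1 h
    have h3 := (mem_filter.1 (mem_filter.1 he).1).1
    have h5 := hYX e h3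
    obtain ⟨a1, -⟩ := ht e h5
    rw [hey, ← hT0] at a1
    have := hinjT _ (hk1 e h5.1) _ (by omega) a1
    omega
  have htinj : Set.InjOn t (Y : Set V) := by
    intro e he e' he' h
    have h5 := hYX e he
    have h5' := hYX e' he'
    refine hinj e h5.1 e' h5'.1 ?_
    rw [(ht e h5).1, (ht e' h5').1, h]
  have hZc : (insert y (Eg.image t)).card = Eg.card + 1 := by
    rw [card_insert_of_notMem hyim, card_image_of_injOn]
    refine htinj.mono ?_
    intro e he
    exact (mem_filter.1 (mem_filter.1 (mem_coe.1 he)).1).1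
  have hmain := hCL V G C C' W a s D Γ (insert y (Eg.image t)) B4 t
    (fun r hr => ((hΓm r).1 hr).1) ?_ ?_ ?_ ?_ ?_
  · obtain ⟨c, hc, c', hc', hcc⟩ := hed
    have hC2 : 2 ≤ (univ.filter fun c => c ∈ C ∧ c ∈ W).card := by
      rw [Nat.succ_le_iff, one_lt_card]
      exact ⟨c, by simp [hc, hCW c hc], c', by simp [hc', hCW c' hc'], hcc.ne⟩
    rw [hZc] at hmain
    change _ ≤ Bf.card + Γ.card at hmain
    omega
  · intro w hw
    rcases mem_insert.1 hw with rfl | hw
    · have hyW := D.w6W hB hy hay hr0 hyr0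
      refine ⟨hy, hay, hyW, ?_⟩
      rcases D.w3 hy hyW with h | h
      · exact Or.inl h
      · exact Or.inr ((hΓm _).2 ⟨h, D.sadj _ hyW⟩)
    · obtain ⟨e, he, rfl⟩ := mem_image.1 hw
      obtain ⟨h1, h2⟩ := mem_filter.1 he
      obtain ⟨h3, h4⟩ := mem_filter.1 h1
      obtain ⟨a1, a2, a3, a4, a5⟩ := ht e (hYX e h3)
      exact ⟨a2, h4, a5 h4, h2⟩
  · intro b hb
    obtain ⟨h1, h2⟩ := mem_filter.1 hb
    obtain ⟨a1, a2, a3, a4, a5⟩ := ht b (hYX b h1)
    exact ⟨(hBm b).1 (a4.resolve_left h2), a2, h2, a3⟩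
  · refine htinj.mono ?_
    intro e he
    exact (mem_filter.1 (mem_coe.1 he)).1
  · intro w hw b hb
    obtain ⟨h1, h2⟩ := mem_filter.1 hb
    have h5 := hYX b h1
    obtain ⟨b1, -⟩ := ht b h5
    rcases mem_insert.1 hw with rfl | hw
    · have := htc b h5.1
      rwa [b1] at this
    · obtain ⟨e, he, rfl⟩ := mem_image.1 hw
      obtain ⟨h3, h4⟩ := mem_filter.1 (mem_filter.1 he).1
      have h6 := hYX e h3
      obtain ⟨a1, -⟩ := ht e h6
      have hne : e ≠ b := by
        rintro rfl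
        exact h2 h4
      have := (htd e h6.1 b h5.1 hne).1
      rwa [a1, b1] at this
  · intro b hb b' hb'
    rcases eq_or_ne b b' with rfl | hne
    · exact G.loopless.irrefl _
    · have h1 := hYX b (mem_filter.1 hb).1
      have h1' := hYX b' (mem_filter.1 hb').1
      have := (htd b h1.1 b' h1'.1 hne).1
      rwa [(ht b h1).1, (ht b' h1').1] at this

/-- **the contradiction** -/
theorem s_TT (hCL : S_CL.{u}) (hNC : S_NC.{u}) (hSE : S_SE.{u}) : S_TT.{u} := by
  intro V _ G C C' W a s Q D hQ hCQ hNQ hful hB hCW hed T y z r hch hnn hpm hhd hlt hy hay hz haz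
    hr hyr hzr
  have hJfull : ∀ j ∈ Jj G C W a s, ∀ c ∈ C, G.Adj j c := by
    rintro j (rfl | hj) c hc
    · exact D.full c hc
    · exact hful j hj c hc
  have hN : NoCyc G C (Jj G C W a s) Q := by
    obtain ⟨c, hc, c', hc', hcc⟩ := hed
    exact hNC V G C _ Q c c' hQ hCQ hc hc' hcc fun j hj => ⟨hJfull j hj c hc, hJfull j hj c' hc'⟩
  have hNr : ∀ r, r ∉ Q → r ∉ C → NoCyc G C (Jj G C W a s) (r :: Q) := by
    intro r _ _ T Q' h1 h2 h3 h4 h5
    refine hN T Q' h1 h2 h3 h4 ?_
    rw [List.length_cons] at h5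
    omega
  have key : ∀ n : ℕ, ∃ (T' : List (K V)) (y' z' r' : V), Good G C (Jj G C W a s) Q T' y' z' ∧
      Hh G C y' ∧ G.Adj a y' ∧ Hh G C z' ∧ G.Adj a z' ∧ Uu G C W a s r' ∧ G.Adj y' r' ∧
      G.Adj z' r' ∧ n ≤ mu G C W a s y' z' := by
    intro n
    induction n with
    | zero => exact ⟨T, y, z, r, ⟨hch, hnn, hpm, hhd, hlt⟩, hy, hay, hz, haz, hr, hyr, hzr,
        Nat.zero_le _⟩
    | succ n ih =>
      obtain ⟨T', y', z', r', hT', k1, k2, k3, k4, k5, k6, k7, k8⟩ := ih
      by_cases hsub : ∀ r, Uu G C W a s r → G.Adj y' r → G.Adj z' r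
      · obtain ⟨T2, y2, z2, r2, m1, m2, m3, m4, m5, m6, m7, m8, m9⟩ :=
          step hCL hSE D hN hNr hQ hCQ hNQ hful hB hCW hed hT' k1 k2 k3 k4 k5 k6 k7 hsub
        exact ⟨T2, y2, z2, r2, m1, m2, m3, m4, m5, m6, m7, m8, by omega⟩
      · push Not at hsub
        obtain ⟨q, q1, q2, q3⟩ := hsub
        have hyz : ¬ G.Adj z' y' := by
          have := hN T' Q hT'.ch hT'.pm (fun x hx hxC => hCQ x hxC hx) hQ.2.1 le_rfl _ _ hT'.hd
            hT'.lt
          exact this
        have hsub' : ∀ r, Uu G C W a s r → G.Adj z' r → G.Adj y' r := by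
          intro q' h1 h2
          by_contra h3
          exact D.w8 k3 k4 k2 hyz h1 q1 h2 h3 q2 q3
        obtain ⟨T2, y2, z2, r2, m1, m2, m3, m4, m5, m6, m7, m8, m9⟩ :=
          step hCL hSE D hN hNr hQ hCQ hNQ hful hB hCW hed hT'.rev k3 k4 k1 k2 k5 k7 k6 hsub'
        rw [mu_comm] at k8
        exact ⟨T2, y2, z2, r2, m1, m2, m3, m4, m5, m6, m7, m8, by omega⟩
  obtain ⟨T', y', z', r', -, -, -, -, -, -, -, -, h⟩ := key (Fintype.card V + 1)
  have h2 : mu G C W a s y' z' ≤ Fintype.card V := by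
    unfold mu
    exact card_le_univ _
  omega

end Pool.Agent.L7h86.LP
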