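import Pool.Agent.L7h86.LP.Stm

/-!
# The vertices of `W` and their successors
-/

set_option autoImplicit false

namespace Pool.Agent.L7h86.LP

open Classical

universe u

variable {V : Type u}

theorem hh_or_nn {G : SimpleGraph V} {C : Set V} {v : V} (h : v ∉ C) (h' : ¬ Nn G C v) :
    Hh G C v := by
  refine ⟨h, fun c hc hcv => h' ⟨h, c, hc, hcv⟩⟩

theorem not_hh_nn {G : SimpleGraph V} {C : Set V} {v : V} (h : Hh G C v) : ¬ Nn G C v := by
  rintro ⟨_, c, hc, hcv⟩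
  exact h.2 c hc hcv

variable [Fintype V] {G : SimpleGraph V} {C C' W : Set V} {a : V} {s : V → V}

namespace Dat

variable (D : Dat G C C' W a s)

include D

theorem ab {b : V} (hb : Bb G C W s b) : ¬ G.Adj a b := by
  obtain ⟨_, w, hw, rfl⟩ := hb
  exact D.sC' w hw a D.aC'

theorem cb {b x : V} (hb : Bb G C W s b) (hx : x ∈ C') : ¬ G.Adj x b := by
  obtain ⟨_, w, hw, rfl⟩ := hb
  exact D.sC' w hw x hx

theorem bb {b b' : V} (hb : Bb G C W s b) (hb' : Bb G C W s b') : ¬ G.Adj b b' := by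
  obtain ⟨_, w, hw, rfl⟩ := hb
  obtain ⟨_, w', hw', rfl⟩ := hb'
  exact D.snon w hw w' hw'

theorem w4 {b x : V} (hb : Bb G C W s b) (hax : G.Adj a x) (hbx : G.Adj b x) : x ∈ W := by
  rcases D.nb a D.aC' x hax with h | h
  · exact absurd hbx.symm (D.cb hb h)
  · exact h

theorem w3 {w : V} (hw : Hh G C w) (hwW : w ∈ W) : Bb G C W s (s w) ∨ Uu G C W a s (s w) := by
  have h1 := D.sadj w hwW
  have h2 : s w ∉ C := fun h => hw.2 _ h h1.symm
  by_cases h3 : Nn G C (s w)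
  · exact Or.inl ⟨h3, w, hwW, rfl⟩
  · right
    refine ⟨hh_or_nn h2 h3, D.sC' w hwW a D.aC', ?_⟩
    rintro b ⟨_, w', hw', rfl⟩
    exact D.snon w' hw' w hwW

/-- a neighbour `d` of `a` with a neighbour in `U` is adjacent to all of `B` -/
theorem w6 {b d r : V} (hb : Bb G C W s b) (hd : Hh G C d) (had : G.Adj a d)
    (hr : Uu G C W a s r) (hdr : G.Adj d r) : G.Adj b d := by
  by_contra hbd
  obtain ⟨_, c, hc, hcb⟩ := hb.1
  exact D.h5 r d a c b hdr.symm had.symm (D.full c hc) hcb (fun h => hr.2.1 h.symm)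
    (fun h => hr.1.2 c hc h.symm) (fun h => hr.2.2 b hb h.symm) (fun h => hd.2 c hc h.symm)
    (fun h => hbd h.symm) (D.ab hb)

theorem w6W (hB : ∃ b, Bb G C W s b) {d r : V} (hd : Hh G C d) (had : G.Adj a d)
    (hr : Uu G C W a s r) (hdr : G.Adj d r) : d ∈ W := by
  obtain ⟨b, hb⟩ := hB
  exact D.w4 hb had (D.w6 hb hd had hr hdr)

theorem w7 {v r r' : V} (hv : Hh G C v) (hav : G.Adj a v) (hr : Hh G C r) (har : ¬ G.Adj a r)
    (hr' : Hh G C r') (har' : ¬ G.Adj a r') (hrr : G.Adj r r') (hvr : G.Adj v r) :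
    G.Adj v r' := by
  by_contra h
  obtain ⟨c, hc⟩ := D.ne
  exact D.h5 r' r v a c hrr.symm hvr.symm hav.symm (D.full c hc) (fun h' => h h'.symm)
    (fun h' => har' h'.symm) (fun h' => hr'.2 c hc h'.symm) (fun h' => har h'.symm)
    (fun h' => hr.2 c hc h'.symm) (fun h' => hv.2 c hc h'.symm)

theorem w8 {v v' r r' : V} (hv : Hh G C v) (hav : G.Adj a v)
    (hav' : G.Adj a v') (hvv : ¬ G.Adj v v') (hr : Uu G C W a s r) (hr' : Uu G C W a s r')
    (h1 : G.Adj v r) (h2 : ¬ G.Adj v' r) (h3 : G.Adj v' r') (h4 : ¬ G.Adj v r') : False := by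
  by_cases hrr : G.Adj r r'
  · exact h4 (D.w7 hv hav hr.1 hr.2.1 hr'.1 hr'.2.1 hrr h1)
  · exact D.h5 r v a v' r' h1.symm hav.symm hav' h3 (fun h => hr.2.1 h.symm)
      (fun h => h2 h.symm) hrr hvv h4 hr'.2.1

/-- bad vertices -/
theorem w5 {w : V} (hw : Hh G C w) (haw : G.Adj a w) (hs : Uu G C W a s (s w))
    (hwW : w ∈ W) {b : V} (hb : Bb G C W s b) : ∀ c ∈ C, G.Adj b c := by
  have hbw : G.Adj b w := D.w6 hb hw haw hs (D.sadj w hwW)
  by_contra hcon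
  push Not at hcon
  obtain ⟨c0, hc0, hbc0⟩ := hcon
  obtain ⟨_, c, hc, hcb⟩ := hb.1
  obtain ⟨u, hu, v, hv, huv, hbu, hbv⟩ : ∃ u ∈ C, ∃ v ∈ C, G.Adj u v ∧ G.Adj b u ∧
      ¬ G.Adj b v := by
    by_contra hcon
    push Not at hcon
    have := D.conn {c | c ∈ C ∧ G.Adj b c} (fun c h => h.1) ⟨c, hc, hcb.symm⟩
      (fun u hu v hv huv => ⟨hv, hcon u hu.1 v hv huv hu.2⟩)
    have h3 : c0 ∈ {c | c ∈ C ∧ G.Adj b c} := by rw [this]; exact hc0
    exact hbc0 h3.2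
  exact D.h5 v u b w (s w) huv.symm hbu.symm hbw (D.sadj w hwW) (fun h => hbv h.symm)
    (hw.2 v hv) (hs.1.2 v hv) (hw.2 u hu) (hs.1.2 u hu) (hs.2.2 b hb)

theorem cW (hB : ∃ b, Bb G C W s b) (hful : ∀ b, Bb G C W s b → ∀ c ∈ C, G.Adj b c) :
    ∀ c ∈ C, c ∈ W := by
  intro c hc
  obtain ⟨b, hb⟩ := hB
  rcases D.nb a D.aC' c (D.full c hc) with h | h
  · exact absurd (hful b hb c hc).symm (D.cb hb h)
  · exact h

end Dat

end Pool.Agent.L7h86.LP
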